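import Pool.Agent.Y5.V.Stm3
import Pool.Agent.Y978.EK.CJ2

/-!
Project VL: existence of the weights.
-/

set_option autoImplicit false

namespace Pool.Agent.Y759.VL.Wt

open Pool.Agent.Y5.V Pool.Agent.Y6.K Pool.Agent.Y978.EK

theorem Ac_four (n : ℕ) : Ac (n + 4) = 8 * Ac n := by
  obtain ⟨a, i, hi, rfl⟩ : ∃ a i, i < 4 ∧ n = 4 * a + i := ⟨n / 4, n % 4, by omega, by omega⟩
  rw [show 4 * a + i + 4 = 4 * (a + 1) + i by ring, Ac_eq _ _ hi, Ac_eq _ _ hi, pow_succ]
  ring

theorem Ac_ge (n : ℕ) : (7 / 5 : ℝ) ^ n ≤ Ac n := by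
  induction n with
  | zero =>
    rw [pow_zero]
    exact chain.A0
  | succ n ih =>
    have := chain.lo n
    rw [pow_succ]
    linarith

theorem Ac_pos (n : ℕ) : 0 < Ac n := lt_of_lt_of_le (by positivity) (Ac_ge n)

/-- logarithms of the coefficients -/
noncomputable def la (n : ℕ) : ℝ := Real.log (Ac n)

theorem la_four (n : ℕ) : la (n + 4) = la n + 3 * Real.log 2 := by
  unfold la
  rw [Ac_four, Real.log_mul (by norm_num) (Ac_pos n).ne', show (8 : ℝ) = 2 ^ 3 by norm_num,
    Real.log_pow]
  push_cast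
  ring

theorem la_lo (n : ℕ) : la n + Real.log (7 / 5) ≤ la (n + 1) := by
  unfold la
  rw [add_comm, ← Real.log_mul (by norm_num) (Ac_pos n).ne']
  exact Real.log_le_log (mul_pos (by norm_num) (Ac_pos n)) (chain.lo n)

theorem la_hi (n : ℕ) : la (n + 1) ≤ la n + Real.log 2 := by
  unfold la
  rw [add_comm (Real.log (Ac n)), ← Real.log_mul (by norm_num) (Ac_pos n).ne']
  exact Real.log_le_log (Ac_pos _) (chain.hi n)

/-- exponents of the weights -/
noncomputable def WW (n : ℕ) : ℝ :=
  (-8 * la n + 4 * la (n + 1) - 2 * la (n + 2) + la (n + 3)) / 15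

theorem rel (n : ℕ) : WW (n + 2) - WW (n + 1) + 2 * (WW (n + 1) - WW n) +
    (la (n + 1) - la n) = 0 := by
  unfold WW
  have h1 := la_four n
  have h2 := la_four (n + 1)
  rw [show n + 1 + 4 = n + 5 by ring] at h2
  rw [show n + 2 + 1 = n + 3 by ring, show n + 2 + 2 = n + 4 by ring,
    show n + 2 + 3 = n + 5 by ring, show n + 1 + 1 = n + 2 by ring,
    show n + 1 + 2 = n + 3 by ring, show n + 1 + 3 = n + 4 by ring]
  linarith

theorem diff_lo (n : ℕ) : -(2 * Real.log 2) ≤ WW (n + 1) - WW n := by
  unfold WW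
  have h0 : 0 ≤ Real.log (7 / 5) := Real.log_nonneg (by norm_num)
  have h2 : 0 ≤ Real.log 2 := Real.log_nonneg (by norm_num)
  have h1 := la_four n
  rw [show n + 1 + 1 = n + 2 by ring, show n + 1 + 2 = n + 3 by ring,
    show n + 1 + 3 = n + 4 by ring]
  have l0 := la_lo n
  have l1 := la_lo (n + 1)
  have l2 := la_lo (n + 2)
  have u0 := la_hi n
  have u1 := la_hi (n + 1)
  have u2 := la_hi (n + 2)
  rw [show n + 1 + 1 = n + 2 by ring] at l1 u1
  rw [show n + 2 + 1 = n + 3 by ring] at l2 u2
  linarith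

theorem WW_le (n : ℕ) : WW n + la n / 3 ≤ Real.log 2 := by
  unfold WW
  have h0 : 0 ≤ Real.log (7 / 5) := Real.log_nonneg (by norm_num)
  have h2 : 0 ≤ Real.log 2 := Real.log_nonneg (by norm_num)
  have l0 := la_lo n
  have l1 := la_lo (n + 1)
  have u0 := la_hi n
  have u1 := la_hi (n + 1)
  have u2 := la_hi (n + 2)
  rw [show n + 1 + 1 = n + 2 by ring] at l1 u1
  rw [show n + 2 + 1 = n + 3 by ring] at u2
  linarith

/-- VL-WT -/
theorem t_WT : S_WT := by
  intro q hq0 hq1
  set w : ℕ → ℝ := fun n => Real.exp (q * (WW n - WW 0)) with hw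
  have hsum : ∀ p : ℝ, p < q / 3 → Summable (fun n => w n * Ac n ^ p) := by
    intro p hp
    have he : 0 < q / 3 - p := by linarith
    have hgeo : Summable (fun n : ℕ => Real.exp (q * (Real.log 2 - WW 0)) *
        (((7 / 5 : ℝ) ^ (-(q / 3 - p))) ^ n)) := by
      apply Summable.mul_left
      apply summable_geometric_of_lt_one (by positivity)
      exact Real.rpow_lt_one_of_one_lt_of_neg (by norm_num) (by linarith)
    refine Summable.of_nonneg_of_le (fun n => ?_) (fun n => ?_) hgeo
    · exact mul_nonneg (Real.exp_pos _).le (Real.rpow_nonneg (Ac_pos n).le _)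
    · have h1 : w n * Ac n ^ p ≤ Real.exp (q * (Real.log 2 - WW 0)) * Ac n ^ (-(q / 3 - p)) := by
        rw [hw]
        simp only
        rw [Real.rpow_def_of_pos (Ac_pos n), Real.rpow_def_of_pos (Ac_pos n), ← Real.exp_add,
          ← Real.exp_add]
        apply Real.exp_le_exp.2
        have h2 := mul_le_mul_of_nonneg_left (WW_le n) hq0.le
        unfold la at h2
        linarith
      refine h1.trans (mul_le_mul_of_nonneg_left ?_ (Real.exp_pos _).le)
      rw [← Real.rpow_natCast, ← Real.rpow_mul (by norm_num), mul_comm, Real.rpow_mul (by norm_num),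
        Real.rpow_natCast]
      exact Real.rpow_le_rpow_of_nonpos (by positivity) (Ac_ge n) (by linarith)
  refine ⟨w, ⟨fun n => Real.exp_pos _, ?_, ?_, ?_⟩, hsum⟩
  · rw [hw]
    simp
  · have h1 := hsum 0 (by linarith)
    simpa using h1
  · -- the gap
    set δ : ℝ := 1 - Real.exp (-((1 - q) * Real.log (7 / 5))) with hδ
    have hlog : 0 < Real.log (7 / 5) := Real.log_pos (by norm_num)
    have hlog2 : 0 < Real.log 2 := Real.log_pos (by norm_num)
    have hδ0 : 0 < δ := by
      rw [hδ, sub_pos, Real.exp_lt_one_iff]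
      have : 0 < (1 - q) * Real.log (7 / 5) := mul_pos (by linarith) hlog
      linarith
    have hδ1 : δ ≤ 1 := by
      rw [hδ]
      have := Real.exp_pos (-((1 - q) * Real.log (7 / 5)))
      linarith
    have hr : ∀ n, (1 / 4 : ℝ) ≤ Real.exp (q * (WW (n + 1) - WW n)) := by
      intro n
      have h1 : Real.exp (-(2 * Real.log 2)) = 1 / 4 := by
        rw [Real.exp_neg, two_mul, Real.exp_add, Real.exp_log (by norm_num)]
        norm_num
      rw [← h1]
      apply Real.exp_le_exp.2
      have h2 := diff_lo n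
      have h3 := mul_le_mul_of_nonneg_left h2 hq0.le
      nlinarith
    refine ⟨δ / 8, by positivity, ?_, fun n => ?_⟩
    · have h1 := hr 0
      have h2 : w 0 = 1 := by
        rw [hw]
        simp
      have h3 : w 1 = Real.exp (q * (WW (0 + 1) - WW 0)) := rfl
      rw [h2, h3]
      linarith
    · have hA := Ac_pos n
      have hA1 := Ac_pos (n + 1)
      -- everything relative to w (n+1)² A (n+1)
      have hw2 : w (n + 2) = w (n + 1) * Real.exp (q * (WW (n + 2) - WW (n + 1))) := by
        rw [hw]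
        simp only
        rw [← Real.exp_add]
        congr 1
        ring
      have hkey : w n ^ 2 * Ac n = w (n + 1) ^ 2 * Ac (n + 1) *
          (Real.exp (q * (WW (n + 2) - WW (n + 1))) *
            Real.exp (-((1 - q) * (la (n + 1) - la n)))) := by
        have e1 : Ac n = Real.exp (la n) := (Real.exp_log hA).symm
        have e2 : Ac (n + 1) = Real.exp (la (n + 1)) := (Real.exp_log hA1).symm
        rw [e1, e2, hw]
        simp only
        rw [← Real.exp_nat_mul, ← Real.exp_nat_mul, ← Real.exp_add, ← Real.exp_add, ← Real.exp_add,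
          ← Real.exp_add]
        congr 1
        push_cast
        linear_combination (-q) * rel n
      have h5 : Real.exp (-((1 - q) * (la (n + 1) - la n))) ≤ 1 - δ := by
        rw [hδ, sub_sub_cancel]
        apply Real.exp_le_exp.2
        have h6 := la_lo n
        have h7 := mul_le_mul_of_nonneg_left (show Real.log (7 / 5) ≤ la (n + 1) - la n by linarith)
          (show (0 : ℝ) ≤ 1 - q by linarith)
        linarith
      have h8 := hr (n + 1)
      rw [hkey, hw2]
      have hX : 0 < w (n + 1) ^ 2 * Ac (n + 1) := by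
        have : 0 < w (n + 1) := Real.exp_pos _
        positivity
      set X := w (n + 1) ^ 2 * Ac (n + 1) with hXdef
      set r := Real.exp (q * (WW (n + 2) - WW (n + 1))) with hrdef
      have h9 : r * Real.exp (-((1 - q) * (la (n + 1) - la n))) ≤ r * (1 - δ) :=
        mul_le_mul_of_nonneg_left h5 (Real.exp_pos _).le
      have h10 : (1 / 4 : ℝ) ≤ r := h8
      have h11 : r * Real.exp (-((1 - q) * (la (n + 1) - la n))) + 2 * (δ / 8) ≤ r := by
        nlinarith
      calc _ = X * (r * Real.exp (-((1 - q) * (la (n + 1) - la n))) + 2 * (δ / 8)) := by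
            rw [hXdef]
            ring
        _ ≤ X * r := mul_le_mul_of_nonneg_left h11 hX.le
        _ = _ := by
            rw [hXdef]
            ring

end Pool.Agent.Y759.VL.Wt
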